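import Pool.Agent.TH597.BL.Main

/-!
The answer to the question is negative, in dimension `13`: for every `D` there is a complete smooth
Riemannian metric of nonnegative Ricci curvature on the manifold `ℝ¹³` such that, for no `N`, the
Riemannian distance admits a bi-Lipschitz embedding into the Euclidean space `ℝᴺ` with distortion
at most `D`.

The metrics are `|dy|² + (y·dy)² + w^(-2a) (dx₁² + dx₂²) + ε² w^(-2-4a) (dx₃ - x₁ dx₂)²` on
`ℝ¹⁰ × ℝ³`, with `w = 1 + |y|²`, `a = 1/m²`, `ε = 1/m` and `m → ∞`. The orbit `y = 0` of the
Heisenberg group `ℝ³` violates every uniform bound, by the inequality between vertical and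
horizontal increments of Hilbert space valued maps on the discrete Heisenberg group.
-/

set_option autoImplicit false

namespace Pool.Agent.Results.MP_39014e_gt.NoUniformEmbedding

open Pool.Agent.W555.RG Pool.Agent.TH597.BL

theorem result : ∀ D : ℝ, ∃ g : RMetric (Fin 13 → ℝ),
    g.IsComplete ∧ (∀ x u, 0 ≤ Ric g x u u) ∧ ∀ N : ℕ, ¬ EmbedsWithDistortion g N D :=
  main

end Pool.Agent.Results.MP_39014e_gt.NoUniformEmbedding
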